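import Pool.Agent.R314.BcHalf

set_option autoImplicit false

/-!
# Critical bond percolation on `ℤ²`: the exact law of the size of a cluster on the boundary

Critical bond percolation (`p = 1/2`) on the square lattice rotated by 45 degrees, on the
half-infinite cylinder with `n` vertices on its boundary circle and on the half-plane. Let `N` be the
number of the boundary vertices in the cluster of a fixed boundary vertex.

(1) The exact law of `N` on the cylinder, for all `n`.
(2) Its scaling limit: `n^(1/3) P (N ≥ x n^(2/3)) → 3 / (2 √π) x^(-1/2) exp (-x³/4)`, `x > 0`.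
(3) All moments of `N` on the cylinder, asymptotically.
(4) The exact law of `N` in the half-plane: `P (N ≥ k) = C(2k,k) (3k-1) / ((2k-1) 4^k)`,
`P (N = k) = 3 k C(2k,k) / (2 (k+1) (2k-1) 4^k)`, `√k P (N ≥ k) → 3 / (2 √π)`, and `N` is almost
surely finite.

(1), (2), (3) and the formula for `P (N ≥ k)` in (4) are proved in the starting helper files
`Pool.Agent.H731R6.Bc`; the rest of (4) is new.
-/

namespace Pool.Agent.Results.MP_35f495_pr.BoundaryClusterLaw

open MeasureTheory Filter Topology

/-- configurations on the cylinder: one bit (`true` = open) for every cell `(a, t)`; the vertices are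
the `(a, t)` (column `a`, depth `t`) with `a + t` even, and the cell `(a, t)` between the columns
`a, a + 1` and the depths `t, t + 1` contains one edge, the diagonal between its two vertices -/
abbrev CylConf (n : ℕ) : Type := ZMod (2 * n) × ℕ → Bool

/-- `p` and `r` are the upper and the lower end of an open edge of the cylinder -/
def CylAdj (n : ℕ) (ω : CylConf n) (p r : ZMod (2 * n) × ℕ) : Prop :=
  ∃ (a : ZMod (2 * n)) (t : ℕ), ω (a, t) = true ∧
    ((Even (a.val + t) ∧ p = (a, t) ∧ r = (a + 1, t + 1)) ∨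
      (¬ Even (a.val + t) ∧ p = (a + 1, t) ∧ r = (a, t + 1)))

/-- bond percolation at `p = 1/2` on the cylinder: independent fair coins -/
noncomputable def cylPerc (n : ℕ) : Measure (CylConf n) :=
  Measure.infinitePi (fun _ => (PMF.uniformOfFintype Bool).toMeasure)

/-- the boundary vertices `(b, 0)` joined to `(0, 0)` by an open path of the cylinder -/
def cylCluster (n : ℕ) (ω : CylConf n) : Set (ZMod (2 * n)) :=
  {b | Relation.EqvGen (CylAdj n ω) (0, 0) (b, 0)}

/-- `p` and `r` are the upper and the lower end of an open edge of the half-plane (the cells and the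
vertices are as on the cylinder, with the columns in `ℤ`) -/
def HalfAdj (ω : ℤ × ℕ → Bool) (p r : ℤ × ℕ) : Prop :=
  ∃ (a : ℤ) (t : ℕ), ω (a, t) = true ∧
    ((Even (a + t) ∧ p = (a, t) ∧ r = (a + 1, t + 1)) ∨
      (¬ Even (a + t) ∧ p = (a + 1, t) ∧ r = (a, t + 1)))

/-- bond percolation at `p = 1/2` on the half-plane: independent fair coins -/
noncomputable def halfPerc : Measure (ℤ × ℕ → Bool) :=
  Measure.infinitePi (fun _ => (PMF.uniformOfFintype Bool).toMeasure)

/-- the boundary vertices `(b, 0)` joined to `(0, 0)` by an open path of the half-plane -/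
def halfCluster (ω : ℤ × ℕ → Bool) : Set ℤ := {b | Relation.EqvGen (HalfAdj ω) (0, 0) (b, 0)}

/-- The exact law of the number of boundary vertices of a boundary cluster, on the half-infinite
cylinder (with scaling limit and moments) and in the half-plane. -/
theorem result :
    (∀ n k : ℕ, 1 ≤ k → k ≤ n → (cylPerc n).real {ω | k ≤ (cylCluster n ω).ncard} =
      ((2 * k).choose k : ℝ) * (3 * k - 1) / (2 * (2 * k - 1)) *
      (((n + k - 1).factorial : ℝ) * (2 * n - k).factorial) /
        (((n - k).factorial : ℝ) * (2 * n + k - 1).factorial)) ∧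
    (∀ x : ℝ, 0 < x → Tendsto (fun n : ℕ => (n : ℝ) ^ ((1 : ℝ) / 3) *
        (cylPerc n).real {ω | x * (n : ℝ) ^ ((2 : ℝ) / 3) ≤ ((cylCluster n ω).ncard : ℝ)}) atTop
      (𝓝 (3 / (2 * Real.sqrt Real.pi) * x ^ (-(1 : ℝ) / 2) * Real.exp (-(x ^ 3 / 4))))) ∧
    (∀ m : ℕ, 1 ≤ m → Tendsto (fun n : ℕ =>
        (∫ ω, ((cylCluster n ω).ncard : ℝ) ^ m ∂(cylPerc n)) /
          (n : ℝ) ^ ((2 * (m : ℝ) - 1) / 3)) atTop
      (𝓝 ((m : ℝ) / (2 * Real.sqrt Real.pi) * 4 ^ ((2 * (m : ℝ) - 1) / 6) *
        Real.Gamma ((2 * (m : ℝ) - 1) / 6)))) ∧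
    (∀ k : ℕ, 1 ≤ k → halfPerc.real {ω | (k : ℕ∞) ≤ (halfCluster ω).encard} =
      ((2 * k).choose k : ℝ) * (3 * k - 1) / ((2 * k - 1) * 4 ^ k)) ∧
    (∀ k : ℕ, 1 ≤ k → halfPerc.real {ω | (halfCluster ω).encard = k} =
      3 * k * ((2 * k).choose k : ℝ) / (2 * (k + 1) * (2 * k - 1) * 4 ^ k)) ∧
    Tendsto (fun k : ℕ => Real.sqrt k * halfPerc.real {ω | (k : ℕ∞) ≤ (halfCluster ω).encard})
      atTop (𝓝 (3 / (2 * Real.sqrt Real.pi))) ∧
    ∀ᵐ ω ∂halfPerc, (halfCluster ω).Finite :=
  ⟨H731B.main.1, H731B.main.2.1, H731B.main.2.2, fun _ hk => H731B.half_plane hk,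
    fun _ hk => Pool.Agent.R314.half_point hk, Pool.Agent.R314.half_tail,
    Pool.Agent.R314.half_finite⟩

end Pool.Agent.Results.MP_35f495_pr.BoundaryClusterLaw
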