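import Pool.Agent.TH976.QC.Fin
import Pool.Agent.H160R2.SA.Arm

/-!
Critical bond percolation on the square lattice (`p = 1/2`) in the quadrant `x ≥ 0, y ≥ 0`: the
probability that two disjoint boundary arcs are joined by an open path inside the quadrant is given
by Cardy's formula, up to multiplicative constants which do not depend on the arcs; the same holds
for the probability that they are not joined. The arcs may be on the same side, on different sides,
they may contain the corner, be infinite, as small as one edge and as close to each other or to the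
corner as one likes. The conformal invariant of Cardy's formula is computed with the conformal map
`z ↦ z²` of the quadrant onto the half-plane, which is not smooth at the corner.
-/

set_option autoImplicit false

namespace Pool.Agent.Results.MP_35f495_pr.CardyQuadrant

open MeasureTheory

/-- The square lattice: two points of `ℤ²` are adjacent when they differ by one in exactly one
coordinate. -/
def Z2 : SimpleGraph (ℤ × ℤ) where
  Adj u v := |u.1 - v.1| + |u.2 - v.2| = 1
  symm := ⟨fun u v h => by rw [abs_sub_comm v.1, abs_sub_comm v.2]; exact h⟩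
  loopless := ⟨fun u h => by simp at h⟩

/-- Critical bond percolation: every edge of the square lattice is open (`true`) with
probability `1/2`, independently of the other edges. -/
noncomputable def crit : Measure (Z2.edgeSet → Bool) :=
  Measure.infinitePi (fun _ => ProbabilityTheory.bernoulliMeasure true false
    ⟨1/2, by norm_num, by norm_num⟩)

/-- The graph of the open edges with both endpoints in the closed quadrant. -/
def openGraph (ω : Z2.edgeSet → Bool) : SimpleGraph (ℤ × ℤ) :=
  SimpleGraph.fromEdgeSet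
    {e | (∃ h : e ∈ Z2.edgeSet, ω ⟨e, h⟩ = true) ∧ ∀ v ∈ e, 0 ≤ v.1 ∧ 0 ≤ v.2}

/-- The boundary vertex of the quadrant with coordinate `t`: `(t, 0)` for `t ≥ 0`, and `(0, -t)` for
`t ≤ 0`. A set of integers stands for a set of boundary vertices, an interval for an arc. -/
def bd (t : ℤ) : ℤ × ℤ := (max t 0, max (-t) 0)

/-- The crossing probability: the probability that an open path in the quadrant joins a vertex of
the set `I` of the boundary to a vertex of the set `J`. -/
noncomputable def cross (I J : Set ℤ) : ℝ :=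
  crit.real {ω | ∃ x ∈ I, ∃ y ∈ J, (openGraph ω).Reachable (bd x) (bd y)}

/-- Cardy's function. -/
noncomputable def cardy (x : ℝ) : ℝ :=
  (∫ u in (0 : ℝ)..x, u ^ (-(2/3) : ℝ) * (1 - u) ^ (-(2/3) : ℝ)) /
    ∫ u in (0 : ℝ)..1, u ^ (-(2/3) : ℝ) * (1 - u) ^ (-(2/3) : ℝ)

/-- The image, under the conformal map `z ↦ z²` of the quadrant onto the upper half-plane, of the
boundary point with coordinate `t` (it is real, and equal to `t |t|`). -/
noncomputable def sq (t : ℝ) : ℝ := ((⟨max t 0, max (-t) 0⟩ : ℂ) ^ 2).re

/-- The two bounds for the probability `p` and the two bounds for `1 - p`. -/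
def Comparable (c C p F : ℝ) : Prop :=
  c * F ≤ p ∧ p ≤ C * F ∧ c * (1 - F) ≤ 1 - p ∧ 1 - p ≤ C * (1 - F)

theorem sq_eq (t : ℝ) : sq t = TH976.QC.sq t := by
  unfold sq TH976.QC.sq
  rw [pow_two, Complex.mul_re]
  rcases le_total 0 t with h | h
  · rw [abs_of_nonneg h, max_eq_left h, max_eq_right (by linarith)]
    ring
  · rw [abs_of_nonpos h, max_eq_right h, max_eq_left (by linarith)]
    ring

theorem adj_iff (ω : Z2.edgeSet → Bool) (u v : ℤ × ℤ) :
    (openGraph ω).Adj u v ↔ (H974.openGraph ω).Adj u v ∧ (0 ≤ u.1 ∧ 0 ≤ u.2) ∧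
      (0 ≤ v.1 ∧ 0 ≤ v.2) := by
  unfold openGraph H974.openGraph
  rw [SimpleGraph.fromEdgeSet_adj, SimpleGraph.fromEdgeSet_adj]
  constructor
  · rintro ⟨⟨h, hV⟩, hne⟩
    exact ⟨⟨h, hne⟩, hV u (Sym2.mem_mk_left u v), hV v (Sym2.mem_mk_right u v)⟩
  · rintro ⟨⟨h, hne⟩, hu, hv⟩
    refine ⟨⟨h, ?_⟩, hne⟩
    intro w hw
    rcases Sym2.mem_iff.mp hw with rfl | rfl
    · exact hu
    · exact hv

theorem reach_iff (ω : Z2.edgeSet → Bool) (x y : ℤ) :
    (openGraph ω).Reachable (bd x) (bd y) ↔
      ∃ p : (H974.openGraph ω).Walk (TH976.QC.bt x) (TH976.QC.bt y),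
        ∀ v ∈ p.support, 0 ≤ v.1 ∧ 0 ≤ v.2 := by
  constructor
  · intro h
    rw [SimpleGraph.reachable_iff_reflTransGen] at h
    have hb : ∀ t : ℤ, 0 ≤ (bd t).1 ∧ 0 ≤ (bd t).2 := fun t => TH976.QC.bt_in t
    have key : ∀ z, Relation.ReflTransGen (openGraph ω).Adj (bd x) z →
        ∃ p : (H974.openGraph ω).Walk (bd x) z, ∀ v ∈ p.support, 0 ≤ v.1 ∧ 0 ≤ v.2 := by
      intro z hz
      induction hz with
      | refl => exact ⟨SimpleGraph.Walk.nil, by simpa using hb x⟩
      | tail _ hs ih =>
        rename_i b c _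
        obtain ⟨p, hp⟩ := ih
        obtain ⟨h1, h2, h3⟩ := (adj_iff ω b c).mp hs
        refine ⟨p.concat h1, ?_⟩
        intro w hw
        rw [SimpleGraph.Walk.support_concat] at hw
        have hw' : w ∈ p.support ∨ w = c := by simpa using hw
        rcases hw' with h | h
        · exact hp w h
        · rw [h]; exact h3
    exact key _ h
  · rintro ⟨p, hp⟩
    have key : ∀ {u v : ℤ × ℤ} (p : (H974.openGraph ω).Walk u v),
        (∀ w ∈ p.support, 0 ≤ w.1 ∧ 0 ≤ w.2) → (openGraph ω).Reachable u v := by
      intro u v p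
      induction p with
      | nil => intro _; exact SimpleGraph.Reachable.refl _
      | cons h p ih =>
        rename_i u w z
        intro hs
        have h1 := ih (fun t ht => hs t (by simp [ht]))
        have h2 : (openGraph ω).Adj u w := (adj_iff ω u w).mpr ⟨h, hs u (by simp), hs w (by simp)⟩
        exact h2.reachable.trans h1
    exact key p hp

theorem cross_eq (I J : Set ℤ) : cross I J = TH976.QC.crossQ I J := by
  have h : TH976.QC.crossQ I J = crit.real (TH976.QC.JoinedQ I J) := rfl
  rw [h]
  unfold cross TH976.QC.JoinedQ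
  congr 1
  ext ω
  simp only [Set.mem_setOf_eq]
  constructor
  · rintro ⟨x, hx, y, hy, h⟩
    exact ⟨x, hx, y, hy, (reach_iff ω x y).mp h⟩
  · rintro ⟨x, hx, y, hy, h⟩
    exact ⟨x, hx, y, hy, (reach_iff ω x y).mpr h⟩

/-- **Cardy's formula up to constants in the quadrant**, for the arcs `[a, b]` and `[c', d]` (real
end points `a - 1 < b < c' < d + 1`), `(-∞, b]` and `[c', d]`, `[a, b]` and `[c', ∞)`. The argument
of Cardy's function is the cross-ratio of the images of the four end points (of the three finite
ones and `∞`) under the conformal map onto the half-plane. -/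
theorem result : ∃ c C : ℝ, 0 < c ∧ 0 < C ∧
    (∀ a b c' d : ℤ, a ≤ b → b < c' → c' ≤ d →
      Comparable c C (cross (Set.Icc a b) (Set.Icc c' d))
        (cardy ((sq b - sq (a - 1)) * (sq (d + 1) - sq c') /
          ((sq c' - sq (a - 1)) * (sq (d + 1) - sq b))))) ∧
    (∀ b c' d : ℤ, b < c' → c' ≤ d →
      Comparable c C (cross (Set.Iic b) (Set.Icc c' d))
        (cardy ((sq (d + 1) - sq c') / (sq (d + 1) - sq b)))) ∧
    (∀ a b c' : ℤ, a ≤ b → b < c' →
      Comparable c C (cross (Set.Icc a b) (Set.Ici c'))
        (cardy ((sq b - sq (a - 1)) / (sq c' - sq (a - 1))))) := by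
  obtain ⟨c, C, hc, hC, h1, h2, h3⟩ := TH976.QC.cardy_quadrant Pool.Agent.H160R2.SA.arSharp
  refine ⟨c, C, hc, hC, ?_, ?_, ?_⟩
  · intro a b c' d hab hbc hcd
    rw [cross_eq]
    simp only [sq_eq]
    exact h1 a b c' d hab hbc hcd
  · intro b c' d hbc hcd
    rw [cross_eq]
    simp only [sq_eq]
    exact h2 b c' d hbc hcd
  · intro a b c' hab hbc
    rw [cross_eq]
    simp only [sq_eq]
    exact h3 a b c' hab hbc

end Pool.Agent.Results.MP_35f495_pr.CardyQuadrant
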