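import Pool.Agent.R966.RC.Fin

/-!
Critical bond percolation on `ε ℤ²` (`p = 1/2`) in a rectangle: the probability that two disjoint
boundary arcs are joined by an open path inside the rectangle is given by Cardy's formula, up to
multiplicative constants which depend only on the rectangle: they do not depend on the arcs (which
may be as small as the mesh, as close to each other or to the corners as one likes, may contain
corners, and may lie on one side, on two sides or on more) nor on the mesh. The value of Cardy's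
formula is a conformal invariant of the rectangle and the four end points; the conformal map is not
smooth at the corners.
-/

set_option autoImplicit false

namespace Pool.Agent.Results.MP_35f495_pr.CardyRectangles

open MeasureTheory

/-- The square lattice: two points of `ℤ²` are adjacent when they differ by one in exactly one
coordinate. -/
def Z2 : SimpleGraph (ℤ × ℤ) where
  Adj u v := |u.1 - v.1| + |u.2 - v.2| = 1
  symm := ⟨fun u v h => by rw [abs_sub_comm v.1, abs_sub_comm v.2]; exact h⟩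
  loopless := ⟨fun u h => by simp at h⟩

/-- Critical bond percolation: every edge of the square lattice is open (`true`) with
probability `1/2`, independently of the other edges. -/
noncomputable def crit : Measure (Z2.edgeSet → Bool) :=
  Measure.infinitePi (fun _ => ProbabilityTheory.bernoulliMeasure true false
    ⟨1/2, by norm_num, by norm_num⟩)

/-- The position of the vertex `v` of the lattice `ε ℤ²` in the plane. -/
noncomputable def pos (ε : ℝ) (v : ℤ × ℤ) : ℂ := ⟨ε * v.1, ε * v.2⟩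

/-- The graph of the open edges of `ε ℤ²` with both endpoints in `D`. -/
def openGraph (ε : ℝ) (D : Set ℂ) (ω : Z2.edgeSet → Bool) : SimpleGraph (ℤ × ℤ) :=
  SimpleGraph.fromEdgeSet {e | (∃ h : e ∈ Z2.edgeSet, ω ⟨e, h⟩ = true) ∧ ∀ v ∈ e, pos ε v ∈ D}

/-- The lattice approximation of the boundary arc `A` of `D`: the vertices of `ε ℤ²` in `D` at
distance at most `2 ε` from `A`. -/
def near (ε : ℝ) (D A : Set ℂ) : Set (ℤ × ℤ) :=
  {v | pos ε v ∈ D ∧ ∃ z ∈ A, dist (pos ε v) z ≤ 2 * ε}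

/-- The crossing probability: the probability that an open path of `ε ℤ²` in `D` joins `A` to
`B`. -/
noncomputable def cross (ε : ℝ) (D A B : Set ℂ) : ℝ :=
  crit.real {ω | ∃ u ∈ near ε D A, ∃ v ∈ near ε D B, (openGraph ε D ω).Reachable u v}

/-- The closed unit disc. -/
def disc : Set ℂ := Metric.closedBall 0 1

/-- The point of the unit circle of argument `θ`. -/
noncomputable def cir (θ : ℝ) : ℂ := Complex.exp (θ * Complex.I)

/-- The closed rectangle `[0, a] × [0, b]`. -/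
def rectangle (a b : ℝ) : Set ℂ := {z | (0 ≤ z.re ∧ z.re ≤ a) ∧ 0 ≤ z.im ∧ z.im ≤ b}

/-- `f` is a homeomorphism of the closed unit disc onto the rectangle `[0, a] × [0, b]`, conformal
in the interior, given by the Schwarz-Christoffel formula: the corners are the images of the points
`cir p₀, cir p₁, cir p₂, cir p₃` of the circle, and `f' z` is a square root of
`c / ∏ (z - cir pⱼ)`. (By the theorem of Schwarz and Christoffel all the conformal maps of the disc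
onto the rectangle have this property.) -/
def SchwarzChristoffel (a b : ℝ) (f : ℂ → ℂ) : Prop :=
  Set.InjOn f disc ∧ ContinuousOn f disc ∧ f '' disc = rectangle a b ∧
    ∃ (p₀ p₁ p₂ p₃ : ℝ) (c : ℂ) (g : ℂ → ℂ), c ≠ 0 ∧
      p₀ < p₁ ∧ p₁ < p₂ ∧ p₂ < p₃ ∧ p₃ < p₀ + 2 * Real.pi ∧
      f (cir p₀) = 0 ∧ f (cir p₁) = a ∧ f (cir p₂) = a + b * Complex.I ∧
      f (cir p₃) = b * Complex.I ∧
      ∀ z ∈ disc, z ≠ cir p₀ → z ≠ cir p₁ → z ≠ cir p₂ → z ≠ cir p₃ →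
        HasDerivWithinAt f (g z) disc z ∧
        g z ^ 2 * ((z - cir p₀) * (z - cir p₁) * (z - cir p₂) * (z - cir p₃)) = c

/-- The boundary arc of the domain `f '' disc` from `f (cir s)` to `f (cir t)`. -/
def arc (f : ℂ → ℂ) (s t : ℝ) : Set ℂ := (fun θ => f (cir θ)) '' Set.Icc s t

/-- The cross-ratio of four points of the unit circle in cyclic order. -/
noncomputable def crossRatio (z₁ z₂ z₃ z₄ : ℂ) : ℝ :=
  ‖z₂ - z₁‖ * ‖z₄ - z₃‖ / (‖z₃ - z₁‖ * ‖z₄ - z₂‖)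

/-- Cardy's function: the predicted limit of the crossing probability, as a function of the
cross-ratio. -/
noncomputable def cardy (x : ℝ) : ℝ :=
  (∫ t in (0 : ℝ)..x, (t * (1 - t)) ^ (-(2 / 3 : ℝ))) /
    ∫ t in (0 : ℝ)..1, (t * (1 - t)) ^ (-(2 / 3 : ℝ))

theorem in_iff {a b ε : ℝ} (hε : 0 < ε) (v : ℤ × ℤ) :
    pos ε v ∈ rectangle a b ↔ H974.inR 0 ⌊a / ε⌋ 0 ⌊b / ε⌋ v := by
  unfold pos rectangle H974.inR
  simp only [Set.mem_setOf_eq, Int.le_floor, le_div_iff₀ hε]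
  have h1 : ∀ x : ℤ, 0 ≤ ε * (x : ℝ) ↔ 0 ≤ x := by
    intro x
    rw [mul_nonneg_iff_of_pos_left hε]
    exact_mod_cast Iff.rfl
  rw [h1, h1, mul_comm ε, mul_comm ε]

open H974 in
theorem openGraph_adj {a b ε : ℝ} (hε : 0 < ε) (ω : Z2.edgeSet → Bool) (u v : ℤ × ℤ) :
    (openGraph ε (rectangle a b) ω).Adj u v ↔
      H974.Adj (↑(H974.FF (RE 0 ⌊a / ε⌋ 0 ⌊b / ε⌋) ω) : Set H974.Edg) u v := by
  have hFF : ∀ e : H974.Edg, e ∈ (↑(H974.FF (RE 0 ⌊a / ε⌋ 0 ⌊b / ε⌋) ω) : Set H974.Edg) ↔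
      e ∈ (H974.opn ω : Set H974.Edg) ∧ e ∈ (↑(RE 0 ⌊a / ε⌋ 0 ⌊b / ε⌋) : Set H974.Edg) :=
    fun e => Set.ext_iff.mp (H974.FF_coe (RE 0 ⌊a / ε⌋ 0 ⌊b / ε⌋) ω) e
  have hI : ∀ z : ℤ × ℤ, pos ε z ∈ rectangle a b ↔ inR 0 ⌊a / ε⌋ 0 ⌊b / ε⌋ z :=
    fun z => in_iff hε z
  unfold openGraph
  rw [SimpleGraph.fromEdgeSet_adj]
  constructor
  · rintro ⟨⟨⟨h', hω⟩, hV⟩, hne⟩
    have hadj : (H974.openGraph ω).Adj u v := by
      unfold H974.openGraph
      rw [SimpleGraph.fromEdgeSet_adj]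
      exact ⟨⟨h', hω⟩, hne⟩
    obtain ⟨e, he, hcase⟩ := (H974.openGraph_adj ω u v).mp hadj
    have hu := (hI u).mp (hV u (Sym2.mem_mk_left u v))
    have hv := (hI v).mp (hV v (Sym2.mem_mk_right u v))
    refine ⟨e, (hFF e).mpr ⟨he, ?_⟩, hcase⟩
    rcases hcase with ⟨h1, h2⟩ | ⟨h1, h2⟩
    · exact Finset.mem_coe.mpr (H731C.RE_of_ends (by rw [h1]; exact hu) (by rw [h2]; exact hv))
    · exact Finset.mem_coe.mpr (H731C.RE_of_ends (by rw [h1]; exact hv) (by rw [h2]; exact hu))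
  · rintro ⟨e, he0, hcase⟩
    have he := (hFF e).mp he0
    have hadj : (H974.openGraph ω).Adj u v := (H974.openGraph_adj ω u v).mpr ⟨e, he.1, hcase⟩
    unfold H974.openGraph at hadj
    rw [SimpleGraph.fromEdgeSet_adj] at hadj
    refine ⟨⟨hadj.1, ?_⟩, hadj.2⟩
    have hends := H731C.RE_ends (Finset.mem_coe.mp he.2)
    intro z hz
    rw [hI]
    rcases Sym2.mem_iff.mp hz with rfl | rfl
    · rcases hcase with ⟨h1, h2⟩ | ⟨h1, h2⟩
      · rw [← h1]; exact hends.1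
      · rw [← h2]; exact hends.2
    · rcases hcase with ⟨h1, h2⟩ | ⟨h1, h2⟩
      · rw [← h2]; exact hends.2
      · rw [← h1]; exact hends.1

theorem cross_eq {a b ε : ℝ} {f : ℂ → ℂ} (hf : f '' disc = rectangle a b) (hε : 0 < ε)
    (θ₁ θ₂ θ₃ θ₄ : ℝ) : cross ε (f '' disc) (arc f θ₁ θ₂) (arc f θ₃ θ₄) =
    H974.Pr Pool.Agent.H160R2.CV.P (H974.RE 0 ⌊a / ε⌋ 0 ⌊b / ε⌋)
      (Pool.Agent.R966.RG.EV a b f ε θ₁ θ₂ θ₃ θ₄) := by
  have hnear : ∀ s t (v : ℤ × ℤ), v ∈ near ε (f '' disc) (arc f s t) ↔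
      H974.inR 0 ⌊a / ε⌋ 0 ⌊b / ε⌋ v ∧ ∃ θ, s ≤ θ ∧ θ ≤ t ∧
        ‖Pool.Agent.R966.RG.pos ε v - f (Pool.Agent.R966.RG.cir θ)‖ ≤ 2 * ε := by
    intro s t v
    rw [hf]
    constructor
    · rintro ⟨h1, z, ⟨θ, ⟨h2, h3⟩, rfl⟩, h4⟩
      exact ⟨(in_iff hε v).mp h1, θ, h2, h3, by rw [dist_eq_norm] at h4; exact h4⟩
    · rintro ⟨h1, θ, h2, h3, h4⟩
      exact ⟨(in_iff hε v).mpr h1, f (cir θ), ⟨θ, ⟨h2, h3⟩, rfl⟩, by rw [dist_eq_norm]; exact h4⟩
  have h1 : H974.Pr Pool.Agent.H160R2.CV.P (H974.RE 0 ⌊a / ε⌋ 0 ⌊b / ε⌋)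
      (Pool.Agent.R966.RG.EV a b f ε θ₁ θ₂ θ₃ θ₄) =
      (H974.bondLaw H974.hlf).real {ω | Pool.Agent.R966.RG.EV a b f ε θ₁ θ₂ θ₃ θ₄
        (H974.FF (H974.RE 0 ⌊a / ε⌋ 0 ⌊b / ε⌋) ω)} :=
    (H974.law_event H974.hlf (H974.RE 0 ⌊a / ε⌋ 0 ⌊b / ε⌋)
      (Pool.Agent.R966.RG.EV a b f ε θ₁ θ₂ θ₃ θ₄)).symm
  have h2 : cross ε (f '' disc) (arc f θ₁ θ₂) (arc f θ₃ θ₄) = (H974.bondLaw H974.hlf).real
      {ω | ∃ u ∈ near ε (f '' disc) (arc f θ₁ θ₂), ∃ v ∈ near ε (f '' disc) (arc f θ₃ θ₄),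
        (openGraph ε (f '' disc) ω).Reachable u v} := rfl
  rw [h1, h2]
  congr 1
  ext ω
  have key : ∀ u v : ℤ × ℤ, (openGraph ε (f '' disc) ω).Reachable u v ↔
      H974.Reach (↑(H974.FF (H974.RE 0 ⌊a / ε⌋ 0 ⌊b / ε⌋) ω) : Set H974.Edg) u v := by
    intro u v
    rw [SimpleGraph.reachable_iff_reflTransGen]
    have e : (openGraph ε (f '' disc) ω).Adj =
        H974.Adj (↑(H974.FF (H974.RE 0 ⌊a / ε⌋ 0 ⌊b / ε⌋) ω) : Set H974.Edg) := by
      funext u v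
      rw [hf]
      exact propext (openGraph_adj hε ω u v)
    rw [e]
    rfl
  constructor
  · rintro ⟨u, hu, v, hv, hr⟩
    exact ⟨u, v, ((hnear _ _ u).mp hu).1, ((hnear _ _ v).mp hv).1, ((hnear _ _ u).mp hu).2,
      ((hnear _ _ v).mp hv).2, (key _ _).mp hr⟩
  · rintro ⟨u, v, hu, hv, hu2, hv2, hr⟩
    exact ⟨u, (hnear _ _ u).mpr ⟨hu, hu2⟩, v, (hnear _ _ v).mpr ⟨hv, hv2⟩, (key _ _).mpr hr⟩

theorem norm_cir_sub (a b : ℝ) : ‖cir a - cir b‖ = 2 * |Real.sin ((a - b) / 2)| := by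
  have h1 : cir a - cir b =
      Complex.exp (b * Complex.I) * (Complex.exp (Complex.I * ((a - b : ℝ) : ℂ)) - 1) := by
    unfold cir
    rw [mul_sub, ← Complex.exp_add, mul_one]
    congr 2
    push_cast
    ring
  rw [h1, norm_mul, Complex.norm_exp_ofReal_mul_I, one_mul,
    Complex.norm_exp_I_mul_ofReal_sub_one, norm_mul, Real.norm_eq_abs, Real.norm_eq_abs,
    abs_of_pos (by norm_num : (0 : ℝ) < 2)]

theorem crossRatio_eq {θ₁ θ₂ θ₃ θ₄ : ℝ} (h1 : θ₁ < θ₂) (h2 : θ₂ < θ₃) (h3 : θ₃ < θ₄)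
    (h4 : θ₄ < θ₁ + 2 * Real.pi) :
    crossRatio (cir θ₁) (cir θ₂) (cir θ₃) (cir θ₄) = Y989.SD.xr θ₁ θ₂ θ₃ θ₄ := by
  have hp : ∀ a b : ℝ, a < b → b < a + 2 * Real.pi →
      ‖cir b - cir a‖ = 2 * Real.sin ((b - a) / 2) := by
    intro a b hab hba
    rw [norm_cir_sub, abs_of_pos]
    apply Real.sin_pos_of_pos_of_lt_pi <;> linarith
  have s1 : 0 < Real.sin ((θ₃ - θ₁) / 2) := by
    apply Real.sin_pos_of_pos_of_lt_pi <;> linarith
  have s2 : 0 < Real.sin ((θ₄ - θ₂) / 2) := by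
    apply Real.sin_pos_of_pos_of_lt_pi <;> linarith
  unfold crossRatio Y989.SD.xr
  rw [hp θ₁ θ₂ h1 (by linarith), hp θ₃ θ₄ h3 (by linarith), hp θ₁ θ₃ (by linarith) (by linarith),
    hp θ₂ θ₄ (by linarith) (by linarith)]
  field_simp

/-- **Cardy's formula up to constants in rectangles.** Let `f` be a conformal map of the disc onto
the rectangle `[0, a] × [0, b]`. There are constants `c, C, ε₀ > 0` such that for every mesh
`ε ≤ ε₀` and all pairs of disjoint boundary arcs `f (cir [θ₁, θ₂])`, `f (cir [θ₃, θ₄])`, the end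
points of each of which are at distance at least `ε`, the probability that critical bond
percolation on `ε ℤ²` contains an open path in the rectangle which joins the two arcs is between
`c F` and `C F`, where `F` is the value of Cardy's formula, i.e. Cardy's function at the cross-ratio
of the four points `cir θ₁, cir θ₂, cir θ₃, cir θ₄` of the unit circle. -/
theorem result (a b : ℝ) (ha : 0 < a) (hb : 0 < b) (f : ℂ → ℂ) (hf : SchwarzChristoffel a b f) :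
    ∃ c C ε₀ : ℝ, 0 < c ∧ 0 < C ∧ 0 < ε₀ ∧
    ∀ ε θ₁ θ₂ θ₃ θ₄ : ℝ, 0 < ε → ε ≤ ε₀ → θ₁ < θ₂ → θ₂ < θ₃ → θ₃ < θ₄ → θ₄ < θ₁ + 2 * Real.pi →
      ε ≤ dist (f (cir θ₁)) (f (cir θ₂)) → ε ≤ dist (f (cir θ₃)) (f (cir θ₄)) →
      c * cardy (crossRatio (cir θ₁) (cir θ₂) (cir θ₃) (cir θ₄)) ≤
        cross ε (f '' disc) (arc f θ₁ θ₂) (arc f θ₃ θ₄) ∧
      cross ε (f '' disc) (arc f θ₁ θ₂) (arc f θ₃ θ₄) ≤
        C * cardy (crossRatio (cir θ₁) (cir θ₂) (cir θ₃) (cir θ₄)) := by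
  obtain ⟨hi, hc, him, p0, p1, p2, p3, k, g, hk, h01, h12, h23, h30, v0, v1, v2, v3, hd⟩ := hf
  have hSC : Pool.Agent.R966.RG.SC a b f g k p0 p1 p2 p3 :=
    ⟨ha, hb, h01, h12, h23, h30, hk, hc, hd, v0, v1, v2, v3⟩
  obtain ⟨c, C, ε₀, hc, hC, hε₀, h⟩ := Pool.Agent.R966.RG.bounds hSC hi
  refine ⟨c, C, ε₀, hc, hC, hε₀, ?_⟩
  intro ε θ₁ θ₂ θ₃ θ₄ hε hε' t1 t2 t3 t4 a1 a2
  rw [crossRatio_eq t1 t2 t3 t4, cross_eq him hε]
  rw [dist_comm, dist_eq_norm] at a1 a2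
  exact h ε θ₁ θ₂ θ₃ θ₄ hε hε' t1 t2 t3 t4 a1 a2

end Pool.Agent.Results.MP_35f495_pr.CardyRectangles
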