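import Pool.Agent.R966.Tip.Scale

/-!
Critical bond percolation on `ℤ²` (`p = 1/2`): the one-point function at the tip of a slit. The exact
probability that the tip of the slit is joined to the right wall of a slit strip (and to the line of
the same direction at distance `r` in the slit plane), its asymptotics with the exponent `1/6` and
the exact constant for all slit strips, and the formulation with the conformal map: the limit is
conformally covariant.

Coordinates: the vertex `(u,v)` of `ℤ²` at mesh `δ` sits at `X + iY`, `X = δ (u - v)`,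
`Y = δ (u + v)` (rotation by 45 degrees and scaling); the column of `(u,v)` is `u - v`, its height
is `u + v`.
-/

namespace Pool.Agent.Results.MP_35f495_pr.SlitTipOnePoint

open MeasureTheory Filter Topology Set

/-- edges of `ℤ²`: `(u,v,false)` joins `(u,v)` and `(u+1,v)`; `(u,v,true)` joins `(u,v)` and
`(u,v+1)`. -/
abbrev Edge := ℤ × ℤ × Bool

/-- configurations (`true` = open) -/
abbrev Conf := Edge → Bool

/-- `x` and `y` are the two ends of an open edge -/
def OpenAdj (ω : Conf) (x y : ℤ × ℤ) : Prop :=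
  (y = (x.1 + 1, x.2) ∧ ω (x.1, x.2, false) = true) ∨
  (x = (y.1 + 1, y.2) ∧ ω (y.1, y.2, false) = true) ∨
  (y = (x.1, x.2 + 1) ∧ ω (x.1, x.2, true) = true) ∨
  (x = (y.1, y.2 + 1) ∧ ω (y.1, y.2, true) = true)

/-- bond percolation at `p = 1/2`: independent fair coins on the edges -/
noncomputable def perc : Measure Conf :=
  Measure.infinitePi (fun _ : Edge => (PMF.uniformOfFintype Bool).toMeasure)

/-- Open edges of the plane with a slit: the slit is the part of the column `1` above its vertex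
`(1,0)` (the tip, of height `1`); the edges with both ends at height `≥ 1` and an end in the column
`1` are removed. -/
def SlitAdj (ω : Conf) (x y : ℤ × ℤ) : Prop :=
  OpenAdj ω x y ∧ ¬ (1 ≤ x.1 + x.2 ∧ 1 ≤ y.1 + y.2 ∧ (x.1 - x.2 = 1 ∨ y.1 - y.2 = 1))

/-- Open edges of the slit strip: both ends in the columns `[1-p, 1+r]`. -/
def SAdj (p r : ℕ) (ω : Conf) (x y : ℤ × ℤ) : Prop :=
  SlitAdj ω x y ∧ 1 - (p:ℤ) ≤ x.1 - x.2 ∧ x.1 - x.2 ≤ 1 + r ∧ 1 - (p:ℤ) ≤ y.1 - y.2 ∧
    y.1 - y.2 ≤ 1 + r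

/-- The tip is joined to the right wall (the column `1+r`) by an open path of the slit strip. -/
def StripArm (p r : ℕ) : Set Conf :=
  {ω | ∃ y : ℤ × ℤ, y.1 - y.2 = 1 + r ∧ Relation.ReflTransGen (SAdj p r ω) (1, 0) y}

/-- The tip is joined to the column `1+r` by an open path of the slit plane. -/
def PlaneArm (r : ℕ) : Set Conf :=
  {ω | ∃ y : ℤ × ℤ, y.1 - y.2 = 1 + r ∧ Relation.ReflTransGen (SlitAdj ω) (1, 0) y}

/-- the product `s (s+1) ... (s+k-1)` -/
noncomputable def rising (s : ℝ) (k : ℕ) : ℝ := ∏ i ∈ Finset.range k, (s + i)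

/-- the slit strip `{-α < X < β} \ {X = 0, Y ≥ 0}` -/
def Dom (α β : ℝ) : Set ℂ := {w | -α < w.re ∧ w.re < β ∧ (w.re = 0 → w.im < 0)}

/-- `f` is an orientation reversing conformal map of the upper half-plane onto the slit strip, with
the boundary correspondence: left wall, left bank of the slit, tip, right bank, right wall
= `(-∞,0)`, `(0,x)`, `x`, `(x,1)`, `(1,∞)`. -/
structure Uniformizes (α β x : ℝ) (f : ℂ → ℂ) : Prop where
  /-- the complex conjugate of `f` is holomorphic in the upper half-plane -/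
  holo : DifferentiableOn ℂ (fun z => (starRingEnd ℂ) (f z)) {z | 0 < z.im}
  /-- `f` is a bijection of the upper half-plane onto the slit strip -/
  bij : BijOn f {z | 0 < z.im} (Dom α β)
  /-- `f` is continuous up to the boundary (without `0`, `1`) -/
  cont : ContinuousOn f {z : ℂ | 0 ≤ z.im ∧ z ≠ 0 ∧ z ≠ 1}
  /-- `(-∞,0)` is mapped to the left wall -/
  leftWall : BijOn (fun t : ℝ => f t) (Iio 0) {w | w.re = -α}
  /-- `(1,∞)` is mapped to the right wall -/
  rightWall : BijOn (fun t : ℝ => f t) (Ioi 1) {w | w.re = β}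
  /-- `(0,x)` is mapped to the left bank of the slit -/
  leftBank : BijOn (fun t : ℝ => f t) (Ioo 0 x) {w | w.re = 0 ∧ 0 < w.im}
  leftBank' : ∀ t ∈ Ioo 0 x, ∀ᶠ z in 𝓝[{z : ℂ | 0 < z.im}] (t : ℂ), (f z).re < 0
  /-- `(x,1)` is mapped to the right bank of the slit -/
  rightBank : BijOn (fun t : ℝ => f t) (Ioo x 1) {w | w.re = 0 ∧ 0 < w.im}
  rightBank' : ∀ t ∈ Ioo x 1, ∀ᶠ z in 𝓝[{z : ℂ | 0 < z.im}] (t : ℂ), 0 < (f z).re
  /-- `x` is mapped to the tip of the slit -/
  tip : f (x : ℂ) = 0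

/-- (1) the exact probability in the slit strips and (2) in the slit plane; (3), (4) the
asymptotics, for all widths (of any parity); (5) the scaling limit, for all `α, β > 0` (distances of
the slit to the two walls), in terms of the conformal map `f` of the upper half-plane onto the slit
strip: `f` takes `x = α/(α+β)` to the tip and `(1,∞)` to the right wall, it behaves like
`κ (z-x)²` at the tip, and the probability is asymptotic to `A (δ/κ)^(1/6) (1-x)^(-1/3)`, with the
universal constant `A = √π / (Γ(1/3) (2π)^(1/6))`. -/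
theorem result :
    (∀ p r : ℕ, Odd p → Even r → 0 < r → perc.real (StripArm p r) =
      rising (2/3) p * rising (1/3) r * rising (1/2) (p + r) /
        (rising (1/2) p * rising (1/2) r * rising (2/3) (p + r))) ∧
    (∀ r : ℕ, Even r → 0 < r → perc.real (PlaneArm r) = rising (1/3) r / rising (1/2) r) ∧
    (∀ p r : ℕ → ℕ, Tendsto p atTop atTop → Tendsto r atTop atTop →
      Tendsto (fun n => perc.real (StripArm (p n) (r n)) *
        ((r n : ℝ) * (p n + r n) / p n)^((1:ℝ)/6)) atTop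
        (𝓝 (√Real.pi / Real.Gamma (1/3)))) ∧
    Tendsto (fun r : ℕ => perc.real (PlaneArm r) * (r : ℝ)^((1:ℝ)/6)) atTop
      (𝓝 (√Real.pi / Real.Gamma (1/3))) ∧
    ∀ α β : ℝ, 0 < α → 0 < β → ∃ (f : ℂ → ℂ) (κ : ℝ), Uniformizes α β (α / (α + β)) f ∧ 0 < κ ∧
      Tendsto (fun z : ℂ => ‖f z‖ / ‖z - (α / (α + β) : ℝ)‖ ^ 2)
        (𝓝[{z : ℂ | 0 < z.im}] ((α / (α + β) : ℝ) : ℂ)) (𝓝 κ) ∧
      ∀ (δ : ℕ → ℝ) (p r : ℕ → ℕ), (∀ n, 0 < δ n) → Tendsto δ atTop (𝓝 0) →
        Tendsto (fun n => δ n * p n) atTop (𝓝 α) → Tendsto (fun n => δ n * r n) atTop (𝓝 β) →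
        Tendsto (fun n => perc.real (StripArm (p n) (r n)) * (δ n)^(-((1:ℝ)/6))) atTop
          (𝓝 (√Real.pi / (Real.Gamma (1/3) * (2 * Real.pi)^((1:ℝ)/6)) * κ^(-((1:ℝ)/6)) *
            (1 - α / (α + β))^(-((1:ℝ)/3)))) := by
  refine ⟨fun p r hp hr hr0 => Pool.Agent.H981R2.TP.PL.strip_exact hp hr hr0,
    fun r hr hr0 => Pool.Agent.H981R2.TP.PL.plane_exact hr hr0,
    fun p r tp tr => Pool.Agent.H981R2.TP.PL.strip_asymp p r tp tr,
    Pool.Agent.H981R2.TP.PL.plane_asymp, fun α β hα hβ => ?_⟩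
  have hf := Pool.Agent.H863R4.uniformizes hα hβ
  refine ⟨Pool.Agent.H863R4.phi α β, Pool.Agent.R966.Tip.kq α β / Real.pi,
    ⟨hf.holo, hf.bij, hf.cont, hf.leftWall, hf.rightWall, hf.leftBank, hf.leftBank',
      hf.rightBank, hf.rightBank', hf.tip⟩, ?_, Pool.Agent.R966.Tip.phi_quad hα hβ, ?_⟩
  · have := Real.pi_pos
    unfold Pool.Agent.R966.Tip.kq
    positivity
  · intro δ p r h1 h2 h3 h4
    rw [← Pool.Agent.R966.Tip.limit_eq hα hβ]
    exact Pool.Agent.R966.Tip.strip_scale hα hβ δ p r h1 h2 h3 h4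

end Pool.Agent.Results.MP_35f495_pr.SlitTipOnePoint
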